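import Pool.Agent.Lib.MP_74a55f_blocks.Fin

/-! Chromatic roots of graphs of maximum degree at least two: an improved general bound. -/

namespace Pool.Agent.Results.MP_74a55f_co.GeneralBound

theorem result (n : ℕ) (G : SimpleGraph (Fin n)) [DecidableRel G.Adj]
    (hΔ : 2 ≤ G.maxDegree) (P : Polynomial ℂ)
    (hP : ∀ k : ℕ, P.eval (k : ℂ) = (Nat.card (G.Coloring (Fin k)) : ℂ))
    (z : ℂ) (hz : P.IsRoot z) : ‖z‖ < 3 * (G.maxDegree : ℝ) - 2 :=
  Pool.Agent.MP_74a55f_co.Blocks.general n G hΔ P hP z hz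

end Pool.Agent.Results.MP_74a55f_co.GeneralBound
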