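import Pool.Agent.Lib.MP_74a55f_co.Final
import Pool.Agent.Lib.MP_74a55f_blocks.Fin

/-! The conjecture of Sokal for graphs of maximum degree at most four. -/

namespace Pool.Agent.Results.MP_74a55f_co.MaxDegreeFour

theorem result (n : ℕ) (G : SimpleGraph (Fin n)) [DecidableRel G.Adj]
    (hΔ : G.maxDegree ≤ 4) (P : Polynomial ℂ)
    (hP : ∀ k : ℕ, P.eval (k : ℂ) = (Nat.card (G.Coloring (Fin k)) : ℂ))
    (z : ℂ) (hz : P.IsRoot z) : ‖z‖ ≤ 2 * (G.maxDegree : ℝ) := by
  rcases Nat.lt_or_ge 3 G.maxDegree with h | h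
  · have h4 : G.maxDegree = 4 := le_antisymm hΔ h
    have h8 := Pool.Agent.MP_74a55f_co.Blocks.degree_four n G hΔ P hP z hz
    rw [h4]
    norm_num
    exact h8.le
  · exact Pool.Agent.MP_74a55f_co.sokal_of_maxDegree_le_three n G h P hP z hz

end Pool.Agent.Results.MP_74a55f_co.MaxDegreeFour
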